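import Pool.Agent.Q55.KY.Stm

set_option autoImplicit false

/-! # The theorem for data -/

namespace Pool.Agent.Q137.KY
open Pool.Agent.Q55.KY Pool.Agent.Q55.KY.Dat

theorem le_antisymm' {R I X : Type} [AddCommGroup X] {D : Dat R I X} (hO : D.OrdF) {x y : X}
    (h : D.Le x y) (h' : D.Le y x) : x = y := by
  rcases hO.ant _ _ h with h1 | h1
  · exact h1
  · rcases hO.ant _ _ h' with h2 | h2
    · exact h2.symm
    · omega

theorem ell_mono {R I X : Type} [AddCommGroup X] {D : Dat R I X} (hO : D.OrdF) {x y : X}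
    (h : D.Le x y) : D.ell x ≤ D.ell y := by
  rcases hO.ant _ _ h with h1 | h1
  · rw [h1]
  · exact h1.le

theorem bw_zero {X : Type} [AddCommGroup X] (x : X) (N : ℕ) (hN : 0 < N) : bw x N 0 = x := by
  unfold bw
  rw [if_pos hN]

theorem red_of {R I X : Type} [AddCommGroup X] {D : Dat R I X} (h2 : D.Le2F) {lam : X}
    (dom : D.Dom lam) {l1 : List I} (h : l1.length = D.ell (D.act l1 lam)) : D.Red l1 := by
  intro l' hl'
  rw [h, ← hl']
  exact h2.lle lam dom l'

theorem key_exists {R I X : Type} [AddCommGroup X] {D : Dat R I X} (h2 : D.Le2F)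
    {l0 : List I} {θ : I → I} {lam : X} {N : ℕ} (hA : D.AllF l0 θ lam N) {p : ℕ → X}
    {l1 : List I} (hp : p ∈ D.LS lam N)
    (h1 : D.act l1 lam = p 0) (h1' : l1.length = D.ell (p 0)) : D.Key lam N p l1 := by
  have hred : D.Red l1 := red_of h2 hA.dom (by rw [h1, h1'])
  refine ⟨hred, ?_, ?_, ?_⟩
  · rw [hA.dem.dem l1 hred]
    refine ⟨hp, ?_⟩
    rw [h1]
    exact Relation.ReflTransGen.refl
  · intro l' hr' hp'
    rw [hA.dem.dem l' hr'] at hp' ⊢
    rw [hA.dem.dem l1 hred]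
    rintro r ⟨hr, hr1⟩
    refine ⟨hr, ?_⟩
    rw [h1] at hr1
    exact Relation.ReflTransGen.trans hr1 hp'.2
  · intro l' hl'
    rw [h1', ← h1, ← hl']
    exact h2.lle lam hA.dom l'

theorem key_eq {R I X : Type} [AddCommGroup X] {D : Dat R I X} (hO : D.OrdF) (h2 : D.Le2F)
    {l0 : List I} {θ : I → I} {lam : X} {N : ℕ} (hA : D.AllF l0 θ lam N) {p : ℕ → X}
    {l : List I} (hp : p ∈ D.LS lam N) (hk : D.Key lam N p l) :
    D.act l lam = p 0 ∧ l.length = D.ell (p 0) := by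
  have hN : 0 < N := hA.adm.1
  obtain ⟨l1, h1, h1'⟩ := h2.mins lam hA.dom (p 0) (hp.1 0 hN)
  obtain ⟨k1, k2, k3, k4⟩ := hk
  have hk1 := key_exists h2 hA hp h1 h1'
  have hsub := k3 l1 hk1.1 hk1.2.1
  rw [hA.dem.dem l k1] at hsub k2
  rw [hA.dem.dem l1 hk1.1] at hsub
  have hb : bw (D.act l lam) N ∈ D.LS lam N := hA.dem.cst _ ⟨l, rfl⟩
  have hle : D.Le (D.act l lam) (p 0) := by
    have := (hsub (show bw (D.act l lam) N ∈ {p | p ∈ D.LS lam N ∧ D.Le (p 0) (D.act l lam)} from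
      ⟨hb, by rw [bw_zero _ _ hN]; exact Relation.ReflTransGen.refl⟩)).2
    rwa [bw_zero _ _ hN, h1] at this
  have heq : D.act l lam = p 0 := le_antisymm' hO hle k2.2
  refine ⟨heq, le_antisymm ?_ ?_⟩
  · rw [← h1']
    exact k4 l1 (by rw [h1, heq])
  · rw [← heq]
    exact h2.lle lam hA.dom l

theorem fin : S_Fin := by
  intro hYcl hHlf hExc hThe R I X _ _ D hAx hO hL h2 l0 θ hX lam mu N M hA hB
  have hN : 0 < N := hA.adm.1
  have hM : 0 < M := hB.adm.1
  have hbM : bw mu M ∈ D.LS mu M := hB.dem.cst _ ⟨[], rfl⟩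
  have hbN : bw lam N ∈ D.LS lam N := hA.dem.cst _ ⟨[], rfl⟩
  refine ⟨?_, ?_, ?_⟩
  · intro p hp
    obtain ⟨l1, h1, h1'⟩ := h2.mins lam hA.dom (p 0) (hp.1 0 hN)
    refine ⟨l1, key_exists h2 hA hp h1 h1', ?_⟩
    intro l' hl'
    obtain ⟨e1, e2⟩ := key_eq hO h2 hA hp hl'
    exact h2.unq lam hA.dom l' l1 (by rw [e1, h1]) (by rw [e1, e2]) (by rw [h1, h1'])
  · intro p hp
    exact hExc R I X D hAx hO mu lam M N hM hN hA.dom hB.cry hB.cr2 hA.cry hA.cr2 hA.dem _
      ⟨hB.xil.ls _ hbM, hA.xil.ls _ hp⟩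
  · intro p hp hW1 c hc hW2 hCon lw lv kw kv
    obtain ⟨w1, w2⟩ := key_eq hO h2 hA hp kw
    obtain ⟨v1, v2⟩ := key_eq hO h2 hB hc kv
    have hlf1 : D.Le (c 0) (D.act lw.reverse mu) :=
      hHlf R I X D hAx hO hL l0 θ hX mu lam M N hM hN hA.dom hB.dom hB.cry hB.cr2 hA.cry hA.dem
        hB.dem hA.xil hB.xil
        (fun lv u u' h => hYcl R I X D hO mu lam M N hM hN hB.cry hA.cry lv u u' h)
        p hp c hc hW2 hCon lw (by rw [w1]; exact Relation.ReflTransGen.refl)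
    have hCon' := hThe R I X D l0 θ mu lam M N hM hN hB.cry hA.cry hA.xil hB.xil _ _ hCon
    simp only [hA.xil.xx p hp, hB.xil.xx _ hbM] at hCon'
    have hlf2 : D.Le (p 0) (D.act lv.reverse lam) :=
      hHlf R I X D hAx hO hL l0 θ hX lam mu N M hN hM hB.dom hA.dom hA.cry hA.cr2 hB.cry hB.dem
        hA.dem hB.xil hA.xil
        (fun lv u u' h => hYcl R I X D hO lam mu N M hN hM hA.cry hB.cry lv u u' h)
        c hc p hp hW1 hCon'.symm lv (by rw [v1]; exact Relation.ReflTransGen.refl)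
    have i1 := ell_mono hO hlf1
    have i2 := ell_mono hO hlf2
    have i3 := h2.lle lam hA.dom lv.reverse
    have i4 := h2.lle mu hB.dom lw.reverse
    rw [List.length_reverse] at i3 i4
    have e : p 0 = D.act lv.reverse lam := by
      rcases hO.ant _ _ hlf2 with h | h
      · exact h
      · omega
    have hun := h2.unq lam hA.dom lw lv.reverse (by rw [w1, e]) (by rw [w1, w2])
      (by rw [← e, List.length_reverse]; omega)
    intro x
    have h3 : D.act lv (D.act lw (D.act lw.reverse x)) = D.act lw.reverse x := by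
      rw [hun, hL.rev']
    rwa [hL.rev'] at h3

end Pool.Agent.Q137.KY
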