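import Pool.Agent.Q137.KY.YCL

set_option autoImplicit false

/-! # Half of the theorem -/

namespace Pool.Agent.Q137.KY
open Pool.Agent.Q55.KY Pool.Agent.Q55.KY.Dat

theorem H_bw {R I X : Type} [AddCommGroup X] {D : Dat R I X} (i : I) (lam : X) (N : ℕ)
    (h : D.ct (D.sm i) lam = 0) (j : ℕ) : D.H i (bw lam N) j = 0 := by
  unfold Dat.H
  refine Finset.sum_eq_zero fun k _ => ?_
  unfold bw
  split_ifs
  · exact h
  · exact map_zero _

theorem mn_bw {R I X : Type} [AddCommGroup X] {D : Dat R I X} (i : I) (lam : X) (N : ℕ)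
    (h : D.ct (D.sm i) lam = 0) : D.mn i N (bw lam N) = 0 := by
  unfold Dat.mn
  obtain ⟨j, -, hj⟩ := Finset.exists_mem_eq_inf' (s := Finset.range (N + 1)) ⟨0, by simp⟩
    (D.H i (bw lam N))
  rw [hj, H_bw i lam N h]

theorem hlf : S_Hlf := by
  intro R I X _ _ D _ hO hL l0 θ hX mu lam M N hM hN dl dm cM c2M cN demN demM xN xM hY p hp c hc
    hHW hCon lw hlw
  have hbM : bw mu M ∈ D.LS mu M := demM.cst _ ⟨[], rfl⟩
  have hbN : bw lam N ∈ D.LS lam N := demN.cst _ ⟨[], rfl⟩
  have h1 : (xi (D.act l0) M (bw mu M), xi (D.act l0) N p) ∈ D.Y mu lam M N lw.reverse := by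
    refine ⟨⟨xM.ls _ hbM, xN.ls _ hp⟩, l0 ++ lw, ?_, ?_⟩
    · have e : xi (D.act l0) N p (N - 1) = D.act l0 (p 0) := by
        unfold xi
        rw [if_pos (by omega)]
        congr 2
        omega
      show D.Le _ (xi (D.act l0) N p (N - 1))
      rw [e, hL.app]
      exact hX.rev _ _ hlw
    · have e : xi (D.act l0) M (bw mu M) 0 = D.act l0 mu := by
        unfold xi bw
        rw [if_pos (by omega), if_pos (by omega)]
      show D.Le (xi (D.act l0) M (bw mu M) 0) _
      rw [e, hL.app, hL.rev']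
      exact Relation.ReflTransGen.refl
  obtain ⟨-, x, hx1, hx2⟩ := (hY _ _ _ hCon).2 h1
  have eb : bw lam N (N - 1) = lam := by unfold bw; rw [if_pos (by omega)]
  have hx1' : D.Le (D.act x lam) lam := by
    have := hx1
    rwa [show (c, bw lam N).2 (N - 1) = lam from eb] at this
  have hfix : D.act x lam = lam := by
    rcases hO.ant _ _ hx1' with h | h
    · exact h
    · rcases hO.ant _ _ (hO.low lam dl _ ⟨x, rfl⟩) with h' | h'
      · exact h'.symm
      · omega
  obtain ⟨l', hl', hfl⟩ := hL.stb lam dl x hfix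
  have key : ∀ i, D.s (D.sm i) lam = lam → 0 ≤ D.ct (D.sm i) (c 0) := by
    intro i hi
    have h0 : D.ct (D.sm i) lam = 0 := by
      have := hO.cts (D.sm i) lam
      rw [hi] at this
      omega
    have hphi : D.phi i N (bw lam N) = 0 := by
      unfold Dat.phi
      rw [H_bw i lam N h0, mn_bw i lam N h0]
      simp
    have hmn : D.mn i M c = 0 := by
      by_contra hne
      have hlt : D.mn i M c < 0 := lt_of_le_of_ne (cM.le0 i c hc) hne
      obtain ⟨c', hc', hF⟩ := c2M.pre i c hc hlt
      have he := eps_mul cM i hc'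
      have hle := cM.le0 i c' hc'
      have hM' : (0 : ℤ) < M := by exact_mod_cast hM
      have he0 : 0 ≤ D.eps i M c' := by
        by_contra hlt'
        push Not at hlt'
        have : D.eps i M c' * M < 0 := mul_neg_of_neg_of_pos hlt' hM'
        linarith
      refine hHW.2 i (c', bw lam N) ⟨hc', hbN⟩ (Or.inr ⟨?_, hF, rfl⟩)
      show D.phi i N (bw lam N) ≤ D.eps i M c'
      rw [hphi]
      exact he0
    exact cM.fst i c hc hmn
  have hx3 : D.Le (c 0) (D.act l' (D.act lw.reverse mu)) := by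
    rw [hl']
    exact hx2
  clear hl'
  induction l' with
  | nil => exact hx3
  | cons i l'' ih =>
    refine ih (fun j hj => hfl j (List.mem_cons_of_mem _ hj)) ?_
    have h2 := hO.z2 i _ _ hx3 (key i (hfl i List.mem_cons_self))
    rwa [show D.act (i :: l'') (D.act lw.reverse mu) =
      D.s (D.sm i) (D.act l'' (D.act lw.reverse mu)) from rfl, hO.ss] at h2

end Pool.Agent.Q137.KY
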