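import Pool.Agent.Q55.KY.Stm

set_option autoImplicit false

/-! # The involution on LS words -/

namespace Pool.Agent.Q137.KY
open Pool.Agent.Q55.KY Pool.Agent.Q55.KY.Dat

theorem xil : S_Xil := by
  intro R I X _ _ D hA hO hL l0 θ hX N hD lam hadm
  obtain ⟨hdu, hc2⟩ := hD lam hadm
  have hN : 0 < N := hadm.1
  have w0 : ∀ l, D.act l (0 : X) = 0 := by
    intro l
    have := hL.smul l 0 (0 : X)
    simpa using this
  have wneg : ∀ l x, D.act l (-x) = - D.act l x := by
    intro l x
    have := hL.smul l (-1) x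
    simpa using this
  let τ : X → X := fun x => - D.act l0 x
  have hτ0 : τ 0 = 0 := by simp only [τ, w0, neg_zero]
  have hct : ∀ i x, D.ct (D.sm (θ i)) (τ x) = D.ct (D.sm i) x := by
    intro i x
    simp only [τ, map_neg, hX.thc, neg_neg]
  choose t ht1 ht2 using hX.cp
  have hctt : ∀ β x, D.ct (t β) (τ x) = D.ct β x := by
    intro β x
    simp only [τ, map_neg, ht2, neg_neg]
  have wsub : ∀ x y, D.act l0 (x - y) = D.act l0 x - D.act l0 y := by
    intro x y
    rw [sub_eq_add_neg, hL.add, wneg, sub_eq_add_neg]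
  have hst : ∀ β x, D.s (t β) (τ x) = τ (D.s β x) := by
    intro β x
    have h1 : D.s (t β) (τ x) = τ x - D.ct (t β) (τ x) • D.rt (t β) := rfl
    rw [h1, hctt, ht1]
    simp only [τ, Dat.s, wsub, hL.smul, smul_neg]
    abel
  have hsi : ∀ i x, D.s (D.sm (θ i)) (τ x) = τ (D.s (D.sm i) x) := by
    intro i x
    have h1 : D.s (D.sm (θ i)) (τ x) = τ x - D.ct (D.sm (θ i)) (τ x) • D.rt (D.sm (θ i)) := rfl
    rw [h1, hct, hX.th]
    simp only [τ, Dat.s, wsub, hL.smul, smul_neg]
    abel
  have htinj : Function.Injective t := by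
    intro β γ h
    apply hA.inj
    have h1 := ht1 β
    rw [h, ht1 γ, neg_inj] at h1
    have := congrArg (D.act l0) h1
    rw [hX.w2, hX.w2] at this
    exact this.symm
  have htsurj : Function.Surjective t := Finite.surjective_of_injective htinj
  have hell : ∀ x, D.ell (τ x) = D.ell x := by
    intro x
    have : {β | D.ct β (τ x) < 0} = t '' {β | D.ct β x < 0} := by
      ext β'
      constructor
      · intro h
        obtain ⟨β, rfl⟩ := htsurj β'
        refine ⟨β, ?_, rfl⟩
        have h' : D.ct (t β) (τ x) < 0 := h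
        rw [hctt] at h'
        exact h'
      · rintro ⟨β, hβ, rfl⟩
        have h' : D.ct β x < 0 := hβ
        show D.ct (t β) (τ x) < 0
        rw [hctt]
        exact h'
    unfold Dat.ell
    rw [this, Set.ncard_image_of_injective _ htinj]
  have hSt : ∀ M j x y, D.St M j x y → D.St M j (τ x) (τ y) := by
    rintro M j x y ⟨β, h1, h2, h3, h4⟩
    refine ⟨t β, by rwa [hctt], ?_, ?_, by rwa [hctt]⟩
    · rw [hst, h2]
    · rw [hell, hell, h3]
  have hCh : ∀ M j x y, D.Ch M j x y → D.Ch M j (τ x) (τ y) := fun M j x y h =>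
    Relation.ReflTransGen.lift τ (fun a b hab => hSt M j a b hab) _ _ h
  have hxi : ∀ p : ℕ → X, xi (D.act l0) N p = fun j => τ (dl N p j) := by
    intro p
    funext j
    unfold xi dl
    split_ifs
    · simp only [τ, wneg, neg_neg]
    · exact hτ0.symm
  have hH : ∀ i (r : ℕ → X) j, D.H (θ i) (fun k => τ (r k)) j = D.H i r j := by
    intro i r j
    unfold Dat.H
    exact Finset.sum_congr rfl fun k _ => hct i (r k)
  have hH' : ∀ i (r : ℕ → X), D.H (θ i) (fun k => τ (r k)) = D.H i r := fun i r =>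
    funext fun j => hH i r j
  have hmn : ∀ i (r : ℕ → X), D.mn (θ i) N (fun k => τ (r k)) = D.mn i N r := by
    intro i r
    unfold Dat.mn
    rw [hH']
  have hrf : ∀ i a b (r : ℕ → X), D.rf (θ i) a b (fun k => τ (r k)) =
      fun k => τ (D.rf i a b r k) := by
    intro i a b r
    funext k
    unfold Dat.rf
    split_ifs
    · exact hsi i (r k)
    · rfl
  have hF : ∀ i (r r' : ℕ → X), D.F i N r r' →
      D.F (θ i) N (fun k => τ (r k)) (fun k => τ (r' k)) := by
    rintro i r r' ⟨a, b, hMC, rfl⟩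
    refine ⟨a, b, ?_, (hrf i a b r).symm⟩
    unfold Dat.MC at hMC ⊢
    rw [hmn, hH']
    exact hMC
  refine ⟨?_, ?_, ?_, ?_, ?_⟩
  · intro p hp
    obtain ⟨h1, h2, h3⟩ := hdu.ls p hp
    rw [hxi]
    refine ⟨?_, ?_, ?_⟩
    · intro j hj
      obtain ⟨l, hl⟩ := h1 j hj
      refine ⟨l0 ++ l, ?_⟩
      show τ (dl N p j) = _
      rw [hl, hL.app]
      simp only [τ, wneg, neg_neg]
    · intro j hj
      show τ (dl N p j) = 0
      rw [h2 j hj, hτ0]
    · intro j hj
      exact hCh _ _ _ _ (h3 j hj)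
  · intro p hp
    funext j
    unfold xi
    split_ifs with h1 h2
    · rw [hX.w2]
      congr 1
      omega
    · omega
    · exact (hp.2.1 j (by omega)).symm
  · intro i p hp q hpq
    rw [hxi, hxi]
    exact hF i _ _ (hc2.dual i p hp q hpq)
  · intro i p
    rw [hxi, hmn, hdu.md]
  · intro i p
    rw [hxi, hH, hdu.hd i p N le_rfl, Nat.sub_self]
    simp [Dat.H]

end Pool.Agent.Q137.KY
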