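import Pool.Agent.Q55.KY.Stm

set_option autoImplicit false

/-! # Closure of the key set -/

namespace Pool.Agent.Q137.KY
open Pool.Agent.Q55.KY Pool.Agent.Q55.KY.Dat

variable {R I X : Type} [AddCommGroup X] {D : Dat R I X}

theorem le_s (β : R) (x : X) (h : 0 < D.ct β x) : D.Le x (D.s β x) :=
  Relation.ReflTransGen.single ⟨β, h, rfl⟩

theorem le_trans' {x y z : X} (h : D.Le x y) (h' : D.Le y z) : D.Le x z :=
  Relation.ReflTransGen.trans h h'

theorem eps_mul {lam : X} {N : ℕ} (c : D.CryF lam N) (i : I) {p : ℕ → X} (hp : p ∈ D.LS lam N) :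
    D.eps i N p * N = - D.mn i N p :=
  Int.ediv_mul_cancel ((dvd_neg).2 (c.dvm i p hp))

theorem phi_mul {lam : X} {N : ℕ} (c : D.CryF lam N) (i : I) {p : ℕ → X} (hp : p ∈ D.LS lam N) :
    D.phi i N p * N = D.H i p N - D.mn i N p :=
  Int.ediv_mul_cancel (dvd_sub (c.dvh i p hp) (c.dvm i p hp))

theorem ycl : S_Ycl := by
  intro R I X _ D hO mu lam M N hM hN cM cN lv u u' hcon
  have hM' : (0 : ℤ) < M := by exact_mod_cast hM
  have hN' : (0 : ℤ) < N := by exact_mod_cast hN
  have core : ∀ u u' : (ℕ → X) × (ℕ → X), u ∈ D.TB mu lam M N → u' ∈ D.TB mu lam M N → ∀ i,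
      D.TF i M N u u' → (u ∈ D.Y mu lam M N lv ↔ u' ∈ D.Y mu lam M N lv) := by
    intro u u' hu hu' i hT
    constructor
    · rintro ⟨-, x, hx1, hx2⟩
      refine ⟨hu', ?_⟩
      rcases hT with ⟨-, h1, hF⟩ | ⟨hpe, hF, h2⟩
      · refine ⟨x, ?_, by rw [h1]; exact hx2⟩
        rcases cN.fN i _ hu.2 _ hF with h | ⟨-, hpos, h⟩
        · rw [h]; exact hx1
        · rw [h]; exact le_trans' hx1 (le_s _ _ hpos)
      · rcases cM.f0 i _ hu.1 _ hF with h | ⟨hm, hpos, h⟩
        · exact ⟨x, by rw [h2]; exact hx1, by rw [h]; exact hx2⟩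
        · have he := eps_mul cM i hu.1
          have hp := phi_mul cN i hu.2
          rw [hm, neg_zero] at he
          have he0 : D.eps i M u.1 = 0 := by
            rcases mul_eq_zero.1 he with h' | h'
            · exact h'
            · omega
          rw [he0] at hpe
          have hle := cN.leh i _ hu.2
          have hHm : D.H i u.2 N = D.mn i N u.2 := by
            have : D.phi i N u.2 * N ≤ 0 := mul_nonpos_of_nonpos_of_nonneg hpe hN'.le
            linarith
          have hlast := cN.lst i _ hu.2 hHm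
          have hz : D.Le (D.s (D.sm i) (D.act x lam)) (u.2 (N - 1)) := hO.z1 i _ _ hx1 hlast
          rcases le_or_gt (D.ct (D.sm i) (D.act x (D.act lv mu))) 0 with hy | hy
          · refine ⟨x, by rw [h2]; exact hx1, ?_⟩
            rw [h]
            exact hO.z1 i _ _ hx2 hy
          · refine ⟨i :: x, by rw [h2]; exact hz, ?_⟩
            rw [h]
            have h3 : D.Le (u.1 0) (D.s (D.sm i) (D.act x (D.act lv mu))) :=
              le_trans' hx2 (le_s _ _ hy)
            have h4 : D.ct (D.sm i) (D.s (D.sm i) (D.act x (D.act lv mu))) ≤ 0 := by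
              rw [hO.cts]; omega
            exact hO.z1 i _ _ h3 h4
    · rintro ⟨-, x, hx1, hx2⟩
      refine ⟨hu, ?_⟩
      rcases hT with ⟨hep, h1, hF⟩ | ⟨-, hF, h2⟩
      · rw [h1] at hx2
        rcases cN.fN i _ hu.2 _ hF with h | ⟨hH, hpos, h⟩
        · exact ⟨x, by rw [h] at hx1; exact hx1, hx2⟩
        · have he := eps_mul cM i hu.1
          have hp := phi_mul cN i hu.2
          have hp1 : D.phi i N u.2 = 1 := by
            have : D.phi i N u.2 * N = 1 * N := by rw [hp, hH]; ring
            exact mul_right_cancel₀ hN'.ne' this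
          have hm0 := cM.le0 i _ hu.1
          have he0 : 0 ≤ D.eps i M u.1 := by
            by_contra hlt
            push Not at hlt
            have : D.eps i M u.1 * M < 0 := mul_neg_of_neg_of_pos hlt hM'
            linarith
          have he1 : D.eps i M u.1 = 0 := by omega
          rw [he1, zero_mul] at he
          have hf := cM.fst i _ hu.1 (by linarith)
          have hy : D.Le (u.1 0) (D.s (D.sm i) (D.act x (D.act lv mu))) := hO.z2 i _ _ hx2 hf
          rw [h] at hx1
          rcases le_or_gt 0 (D.ct (D.sm i) (D.act x lam)) with hz | hz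
          · refine ⟨x, ?_, hx2⟩
            have := hO.z2 i _ _ hx1 hz
            rwa [hO.ss] at this
          · refine ⟨i :: x, ?_, hy⟩
            have hst : D.Le (D.s (D.sm i) (D.act x lam)) (D.act x lam) := by
              have := le_s (D := D) (D.sm i) (D.s (D.sm i) (D.act x lam)) (by rw [hO.cts]; omega)
              rwa [hO.ss] at this
            have := hO.z2 i _ _ (le_trans' hst hx1) (by rw [hO.cts]; omega)
            rwa [hO.ss] at this
      · refine ⟨x, by rw [← h2]; exact hx1, ?_⟩
        rcases cM.f0 i _ hu.1 _ hF with h | ⟨-, hpos, h⟩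
        · rw [← h]; exact hx2
        · rw [h] at hx2
          exact le_trans' (le_s _ _ hpos) hx2
  induction hcon with
  | rel u u' h =>
    obtain ⟨hu, hu', i, hT⟩ := h
    exact core u u' hu hu' i hT
  | refl u => exact Iff.rfl
  | symm u u' _ ih => exact ih.symm
  | trans u v w _ _ ih1 ih2 => exact ih1.trans ih2

end Pool.Agent.Q137.KY
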